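import Pool.Agent.Helper55_DDQ.Stmts

/-!
Module CVF of squad DDQ.
-/

set_option autoImplicit false

namespace Pool.Agent.DDQ.H21

open Polynomial IntermediateField

theorem quartic_eq {E : Type} [Field E] (q : E[X]) (h : q.natDegree ≤ 4) :
    q = C (q.coeff 4) * X ^ 4 + C (q.coeff 3) * X ^ 3 + C (q.coeff 2) * X ^ 2 +
      C (q.coeff 1) * X + C (q.coeff 0) := by
  ext i
  rcases Nat.lt_or_ge i 5 with hi | hi
  · interval_cases i <;> simp [coeff_X, coeff_C]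
  · rw [coeff_eq_zero_of_natDegree_lt (by omega)]
    have h4 : i ≠ 4 := by omega
    have h3 : i ≠ 3 := by omega
    have h2 : i ≠ 2 := by omega
    have h1 : i ≠ 1 := by omega
    have h0 : i ≠ 0 := by omega
    simp [coeff_X, coeff_C, coeff_X_pow, h4, h3, h2, h1.symm, h0]

/-- A sextic with given coefficients. -/
noncomputable def six {E : Type} [Field E] (c6 c5 c4 c3 c2 c1 c0 : E) : E[X] :=
  C c6 * X ^ 6 + C c5 * X ^ 5 + C c4 * X ^ 4 + C c3 * X ^ 3 + C c2 * X ^ 2 + C c1 * X + C c0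

theorem six_coeff6 {E : Type} [Field E] (c6 c5 c4 c3 c2 c1 c0 : E) :
    (six c6 c5 c4 c3 c2 c1 c0).coeff 6 = c6 := by
  simp [six]

theorem six_coeff5 {E : Type} [Field E] (c6 c5 c4 c3 c2 c1 c0 : E) :
    (six c6 c5 c4 c3 c2 c1 c0).coeff 5 = c5 := by
  simp [six]

theorem six_coeff4 {E : Type} [Field E] (c6 c5 c4 c3 c2 c1 c0 : E) :
    (six c6 c5 c4 c3 c2 c1 c0).coeff 4 = c4 := by
  simp [six]

theorem six_deg6 {E : Type} [Field E] (c6 c5 c4 c3 c2 c1 c0 : E) :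
    (six c6 c5 c4 c3 c2 c1 c0).natDegree ≤ 6 := by
  unfold six; compute_degree

theorem six_deg5 {E : Type} [Field E] (c5 c4 c3 c2 c1 c0 : E) :
    (six 0 c5 c4 c3 c2 c1 c0).natDegree ≤ 5 := by
  unfold six
  rw [C_0, zero_mul, zero_add]
  compute_degree

theorem six_deg4 {E : Type} [Field E] (c4 c3 c2 c1 c0 : E) :
    (six 0 0 c4 c3 c2 c1 c0).natDegree ≤ 4 := by
  unfold six
  rw [C_0, zero_mul, zero_mul, zero_add, zero_add]
  compute_degree

theorem expand {E : Type} [Field E] (a b g A B B0 C3 C2 C1 C0 D4 D3 D2 D1 D0 : E) :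
    (C a * X ^ 2 + C b * X + C g : E[X]) ^ 3 +
      (C A * X ^ 2 + C B * X + C B0) * (C a * X ^ 2 + C b * X + C g) ^ 2 +
      (C C3 * X ^ 3 + C C2 * X ^ 2 + C C1 * X + C C0) * (C a * X ^ 2 + C b * X + C g) +
      (C D4 * X ^ 4 + C D3 * X ^ 3 + C D2 * X ^ 2 + C D1 * X + C D0) =
    six (a ^ 3 + A * a ^ 2) (3 * a ^ 2 * b + 2 * a * b * A + B * a ^ 2 + C3 * a)
      (3 * a * b ^ 2 + 3 * a ^ 2 * g + A * (b ^ 2 + 2 * a * g) + 2 * a * b * B + B0 * a ^ 2 +
        C3 * b + C2 * a + D4)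
      (b ^ 3 + 6 * a * b * g + 2 * b * g * A + B * (b ^ 2 + 2 * a * g) + 2 * a * b * B0 +
        C3 * g + C2 * b + C1 * a + D3)
      (3 * b ^ 2 * g + 3 * a * g ^ 2 + A * g ^ 2 + 2 * b * g * B + B0 * (b ^ 2 + 2 * a * g) +
        C2 * g + C1 * b + C0 * a + D2)
      (3 * b * g ^ 2 + B * g ^ 2 + 2 * b * g * B0 + C1 * g + C0 * b + D1)
      (g ^ 3 + B0 * g ^ 2 + C0 * g + D0) := by
  unfold six
  simp only [map_add, map_mul, map_pow, map_ofNat]
  ring

/-- The polynomial `H_0(X, κ)` can be given every degree 4, 5, 6. -/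
theorem exists_kappa {E : Type} [Field E] [CharZero E] (q₂ q₃ q₄ : E[X]) (h2 : q₂.natDegree ≤ 2)
    (h3 : q₃.natDegree ≤ 3) (h4 : q₄.natDegree ≤ 4) (hA : q₂.coeff 2 ≠ 0) (m : ℕ) (hm : 4 ≤ m)
    (hm' : m ≤ 6) :
    ∃ κ : E[X], κ.natDegree ≤ 2 ∧ (κ ^ 3 + q₂ * κ ^ 2 + q₃ * κ + q₄).natDegree ≤ m ∧
      (κ ^ 3 + q₂ * κ ^ 2 + q₃ * κ + q₄).coeff m ≠ 0 := by
  have e2 : q₂ = C (q₂.coeff 2) * X ^ 2 + C (q₂.coeff 1) * X + C (q₂.coeff 0) := by
    have := quartic_eq q₂ (by omega)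
    rw [coeff_eq_zero_of_natDegree_lt (show q₂.natDegree < 4 by omega),
      coeff_eq_zero_of_natDegree_lt (show q₂.natDegree < 3 by omega)] at this
    simpa using this
  have e3 : q₃ = C (q₃.coeff 3) * X ^ 3 + C (q₃.coeff 2) * X ^ 2 + C (q₃.coeff 1) * X +
      C (q₃.coeff 0) := by
    have := quartic_eq q₃ (by omega)
    rw [coeff_eq_zero_of_natDegree_lt (show q₃.natDegree < 4 by omega)] at this
    simpa using this
  have e4 := quartic_eq q₄ h4
  have key : ∀ a b g : E, (C a * X ^ 2 + C b * X + C g : E[X]).natDegree ≤ 2 := by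
    intro a b g; compute_degree
  generalize hA' : q₂.coeff 2 = A at *
  generalize hB : q₂.coeff 1 = B at *
  generalize hB0 : q₂.coeff 0 = B0 at *
  generalize hC3 : q₃.coeff 3 = C3 at *
  generalize hC2 : q₃.coeff 2 = C2 at *
  generalize hC1 : q₃.coeff 1 = C1 at *
  generalize hC0 : q₃.coeff 0 = C0 at *
  generalize hD4 : q₄.coeff 4 = D4 at *
  generalize hD3 : q₄.coeff 3 = D3 at *
  generalize hD2 : q₄.coeff 2 = D2 at *
  generalize hD1 : q₄.coeff 1 = D1 at *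
  generalize hD0 : q₄.coeff 0 = D0 at *
  rcases (by omega : m = 6 ∨ m = 5 ∨ m = 4) with rfl | rfl | rfl
  · refine ⟨C A * X ^ 2 + C 0 * X + C 0, key _ _ _, ?_, ?_⟩
    · rw [e2, e3, e4, expand]
      exact six_deg6 _ _ _ _ _ _ _
    · rw [e2, e3, e4, expand, six_coeff6]
      have : A ^ 3 + A * A ^ 2 = 2 * A ^ 3 := by ring
      rw [this]
      exact mul_ne_zero two_ne_zero (pow_ne_zero 3 hA)
  · refine ⟨C (-A) * X ^ 2 + C ((C3 - A * B) / A + 1) * X + C 0, key _ _ _, ?_, ?_⟩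
    · rw [e2, e3, e4, expand, show (-A) ^ 3 + A * (-A) ^ 2 = 0 by ring]
      exact six_deg5 _ _ _ _ _ _
    · rw [e2, e3, e4, expand, six_coeff5]
      have : 3 * (-A) ^ 2 * ((C3 - A * B) / A + 1) + 2 * (-A) * ((C3 - A * B) / A + 1) * A +
          B * (-A) ^ 2 + C3 * (-A) = A ^ 2 := by
        field_simp
        ring
      rw [this]
      exact pow_ne_zero 2 hA
  · obtain ⟨b, hb⟩ : ∃ b, b = (C3 - A * B) / A := ⟨_, rfl⟩
    have h5 : ∀ g : E, 3 * (-A) ^ 2 * b + 2 * (-A) * b * A + B * (-A) ^ 2 + C3 * (-A) = 0 := by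
      intro g
      rw [hb]
      field_simp
      ring
    obtain ⟨w, hw⟩ : ∃ w, w = 3 * (-A) * b ^ 2 + A * b ^ 2 + 2 * (-A) * b * B + B0 * (-A) ^ 2 +
        C3 * b + C2 * (-A) + D4 := ⟨_, rfl⟩
    refine ⟨C (-A) * X ^ 2 + C b * X + C ((1 - w) / A ^ 2), key _ _ _, ?_, ?_⟩
    · rw [e2, e3, e4, expand, show (-A) ^ 3 + A * (-A) ^ 2 = 0 by ring, h5 0]
      exact six_deg4 _ _ _ _ _
    · rw [e2, e3, e4, expand, six_coeff4]
      have : 3 * (-A) * b ^ 2 + 3 * (-A) ^ 2 * ((1 - w) / A ^ 2) +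
          A * (b ^ 2 + 2 * (-A) * ((1 - w) / A ^ 2)) + 2 * (-A) * b * B + B0 * (-A) ^ 2 +
          C3 * b + C2 * (-A) + D4 = w + A ^ 2 * ((1 - w) / A ^ 2) := by
        rw [hw]; ring
      rw [this, mul_div_cancel₀ _ (pow_ne_zero 2 hA)]
      simp

theorem cvf (swp : SwpStmt) : CvfStmt := by
  intro E L _ _ _ _ M Z q₂ q₃ q₄ hM htop hfin h2 h3 h4 hA hZ n hn
  rcases Nat.lt_or_ge n 4 with hn4 | hn4
  · have : n = 3 := by omega
    subst this
    exact ⟨M, hM, hfin⟩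
  obtain ⟨s, m, hm, hm', hnm⟩ : ∃ s m : ℕ, 4 ≤ m ∧ m ≤ 6 ∧ n = 3 * s + m := by
    refine ⟨(n - 4) / 3, (n - 4) % 3 + 4, by omega, by omega, by omega⟩
  obtain ⟨κ, hκ, hG, hGm⟩ := exists_kappa q₂ q₃ q₄ h2 h3 h4 hA m hm hm'
  have hM0 : M ≠ 0 := by
    rintro rfl
    exact hM (isAlgebraic_zero)
  obtain ⟨t, ht⟩ : ∃ t : L, t = (Z - aeval M κ) * M ^ s := ⟨_, rfl⟩
  obtain ⟨c2, hc2⟩ : ∃ c2 : E[X], c2 = (3 * κ + q₂) * X ^ s := ⟨_, rfl⟩
  obtain ⟨c1, hc1⟩ : ∃ c1 : E[X], c1 = (3 * κ ^ 2 + 2 * q₂ * κ + q₃) * X ^ (2 * s) := ⟨_, rfl⟩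
  obtain ⟨c0, hc0⟩ : ∃ c0 : E[X], c0 = (κ ^ 3 + q₂ * κ ^ 2 + q₃ * κ + q₄) * X ^ (3 * s) :=
    ⟨_, rfl⟩
  obtain ⟨H, hH⟩ : ∃ H : E[X][X], H = X ^ 3 + (C c2 * X ^ 2 + C c1 * X + C c0) := ⟨_, rfl⟩
  have hlow : (C c2 * X ^ 2 + C c1 * X + C c0 : E[X][X]).degree < 3 := by
    have : (C c2 * X ^ 2 + C c1 * X + C c0 : E[X][X]).degree ≤ 2 := by compute_degree
    exact lt_of_le_of_lt this (by norm_num)
  have hmon : H.Monic := by
    rw [hH]
    exact monic_X_pow_add hlow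
  have hnat : H.natDegree = 3 := by
    rw [hH, natDegree_add_eq_left_of_degree_lt (by rw [degree_X_pow]; exact hlow),
      natDegree_X_pow]
  have hd0 : c0.natDegree ≤ n := by
    rw [hc0]
    refine (natDegree_mul_le).trans ?_
    rw [natDegree_X_pow]
    omega
  have hd1 : c1.natDegree ≤ n := by
    rw [hc1]
    refine (natDegree_mul_le).trans ?_
    rw [natDegree_X_pow]
    have a1 : (3 * κ ^ 2 : E[X]).natDegree ≤ 4 := by
      refine natDegree_mul_le.trans ?_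
      have := natDegree_pow_le (p := κ) (n := 2)
      have h3' : (3 : E[X]).natDegree = 0 := natDegree_ofNat 3
      omega
    have a2 : (2 * q₂ * κ : E[X]).natDegree ≤ 4 := by
      refine natDegree_mul_le.trans ?_
      have := natDegree_mul_le (p := (2 : E[X])) (q := q₂)
      have h3' : (2 : E[X]).natDegree = 0 := natDegree_ofNat 2
      omega
    have a3 : (3 * κ ^ 2 + 2 * q₂ * κ + q₃ : E[X]).natDegree ≤ 4 :=
      (natDegree_add_le _ _).trans (max_le ((natDegree_add_le _ _).trans (max_le a1 a2))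
        (by omega))
    omega
  have hd2 : c2.natDegree ≤ n := by
    rw [hc2]
    refine (natDegree_mul_le).trans ?_
    rw [natDegree_X_pow]
    have a1 : (3 * κ : E[X]).natDegree ≤ 2 := by
      refine natDegree_mul_le.trans ?_
      have h3' : (3 : E[X]).natDegree = 0 := natDegree_ofNat 3
      omega
    have a3 : (3 * κ + q₂ : E[X]).natDegree ≤ 2 := (natDegree_add_le _ _).trans (max_le a1 h2)
    omega
  have hco : ∀ i, (H.coeff i).natDegree ≤ n := by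
    intro i
    rcases Nat.lt_or_ge i 4 with hi | hi
    · interval_cases i
      · have : H.coeff 0 = c0 := by rw [hH]; simp
        rw [this]; exact hd0
      · have : H.coeff 1 = c1 := by rw [hH]; simp [coeff_C]
        rw [this]; exact hd1
      · have : H.coeff 2 = c2 := by rw [hH]; simp [coeff_X, coeff_C]
        rw [this]; exact hd2
      · have : H.coeff 3 = 1 := by rw [hH]; simp [coeff_X, coeff_C]
        rw [this, natDegree_one]; exact Nat.zero_le _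
    · rw [coeff_eq_zero_of_natDegree_lt (by rw [hnat]; omega), natDegree_zero]
      exact Nat.zero_le _
  have hcn : (H.coeff 0).coeff n ≠ 0 := by
    have : H.coeff 0 = c0 := by rw [hH]; simp
    rw [this, hc0, hnm, add_comm (3 * s) m, coeff_mul_X_pow]
    exact hGm
  have hev : H.eval₂ (Polynomial.aeval M : Polynomial E →ₐ[E] L).toRingHom t = 0 := by
    rw [hH]
    simp only [eval₂_add, eval₂_mul, eval₂_pow, eval₂_X, eval₂_C, AlgHom.toRingHom_eq_coe,
      RingHom.coe_coe]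
    rw [hc0, hc1, hc2, ht]
    simp only [map_add, map_mul, map_pow, aeval_X, map_ofNat]
    have : ((Z - (aeval M) κ) * M ^ s) ^ 3 +
        ((3 * (aeval M) κ + (aeval M) q₂) * M ^ s * ((Z - (aeval M) κ) * M ^ s) ^ 2 +
        (3 * (aeval M) κ ^ 2 + 2 * (aeval M) q₂ * (aeval M) κ + (aeval M) q₃) * M ^ (2 * s) *
          ((Z - (aeval M) κ) * M ^ s) +
        ((aeval M) κ ^ 3 + (aeval M) q₂ * (aeval M) κ ^ 2 + (aeval M) q₃ * (aeval M) κ +
          (aeval M) q₄) * M ^ (3 * s)) =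
        (Z ^ 3 + (aeval M) q₂ * Z ^ 2 + (aeval M) q₃ * Z + (aeval M) q₄) * M ^ (3 * s) := by
      ring
    rw [this, hZ, zero_mul]
  have htop' : adjoin E {M, t} = ⊤ := by
    rw [eq_top_iff, ← htop, IntermediateField.adjoin_le_iff]
    have hMm : M ∈ adjoin E {M, t} := IntermediateField.subset_adjoin E _ (by simp)
    have htm : t ∈ adjoin E {M, t} := IntermediateField.subset_adjoin E _ (by simp)
    have hκm : aeval M κ ∈ adjoin E {M, t} := by
      have := IntermediateField.algebra_adjoin_le_adjoin E {M, t}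
        (Algebra.adjoin_mono (by simp : ({M} : Set L) ⊆ {M, t})
          (Polynomial.aeval_mem_adjoin_singleton E M (p := κ)))
      exact this
    rintro x (rfl | rfl)
    · exact hMm
    · have e : x = t * (M ^ s)⁻¹ + aeval M κ := by
        rw [ht]
        field_simp
        ring
      rw [e]
      exact add_mem (mul_mem htm (inv_mem (pow_mem hMm s))) hκm
  obtain ⟨h5, h6⟩ := swp E L M t H n hM htop' hmon.isPrimitive hev (by rw [hnat, hfin])
    (by rw [hnat]; norm_num) hco ⟨0, hcn⟩ (by omega)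
  exact ⟨t, h5, h6⟩

end Pool.Agent.DDQ.H21
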