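import Pool.Agent.Helper55_DDQ.Stmts

/-!
Module SWP of squad DDQ.
-/

set_option autoImplicit false

namespace Pool.Agent.DDQ.H21

open Polynomial IntermediateField

variable {E L : Type} [Field E] [Field L] [Algebra E L]

/-- the map `E[X] → E(α)` -/
noncomputable def phi (α : L) : E[X] →+* E⟮α⟯ :=
  (aeval (AdjoinSimple.gen E α) : E[X] →ₐ[E] E⟮α⟯).toRingHom

theorem phi_coe (α : L) (f : E[X]) : ((phi α f : E⟮α⟯) : L) = aeval α f := by
  unfold phi
  rw [AlgHom.toRingHom_eq_coe, RingHom.coe_coe]
  have : aeval ((AdjoinSimple.gen E α : E⟮α⟯) : L) f = ((aeval (AdjoinSimple.gen E α) f : E⟮α⟯) : L) :=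
    by
      have := Polynomial.aeval_algebraMap_apply L (AdjoinSimple.gen E α) f
      exact this
  rw [← this]
  rfl

theorem phi_injective {α : L} (hα : Transcendental E α) : Function.Injective (phi (E := E) α) := by
  intro f g h
  have h' : aeval α f = aeval α g := by rw [← phi_coe, ← phi_coe, h]
  exact (transcendental_iff_injective.1 hα) h'

theorem frac {α : L} (hα : Transcendental E α) :
    letI := (phi (E := E) α).toAlgebra
    IsFractionRing E[X] E⟮α⟯ := by
  let _ := (phi (E := E) α).toAlgebra
  have : FaithfulSMul E[X] E⟮α⟯ := (faithfulSMul_iff_algebraMap_injective _ _).2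
    (phi_injective hα)
  apply IsFractionRing.of_field
  intro z
  obtain ⟨r, s, h⟩ := (IntermediateField.mem_adjoin_simple_iff E (z : L)).1 z.2
  refine ⟨r, s, Subtype.ext ?_⟩
  have e : ∀ f : E[X], ((algebraMap E[X] E⟮α⟯ f : E⟮α⟯) : L) = aeval α f := fun f => phi_coe α f
  push_cast
  rw [e, e, h]

theorem irr_iff {α : L} (hα : Transcendental E α) {H : E[X][X]} (hH : H.IsPrimitive) :
    Irreducible H ↔ Irreducible (H.map (phi (E := E) α)) := by
  let _ := (phi (E := E) α).toAlgebra
  have := frac (E := E) hα
  exact hH.irreducible_iff_irreducible_map_fraction_map (K := E⟮α⟯)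

theorem eval_map (α β : L) (H : E[X][X]) :
    aeval β (H.map (phi (E := E) α)) =
      H.eval₂ (Polynomial.aeval α : Polynomial E →ₐ[E] L).toRingHom β := by
  rw [aeval_def, eval₂_map]
  congr 1
  ext f
  · simp only [RingHom.coe_comp, Function.comp_apply]
    exact phi_coe α _
  · simp only [RingHom.coe_comp, Function.comp_apply]
    exact phi_coe α _

theorem adjoin_top {α β : L} (h : adjoin E {α, β} = ⊤) : adjoin E⟮α⟯ {β} = ⊤ := by
  apply IntermediateField.restrictScalars_injective E
  rw [IntermediateField.adjoin_simple_adjoin_simple, h]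
  rfl

/-- degree from an irreducible relation -/
theorem finrank_of_irr {α β : L} (h : adjoin E {α, β} = ⊤) {P : E⟮α⟯[X]} (hP : Irreducible P)
    (h0 : aeval β P = 0) : Module.finrank E⟮α⟯ L = P.natDegree := by
  have hint : IsIntegral E⟮α⟯ β := by
    refine isAlgebraic_iff_isIntegral.1 ⟨P, hP.ne_zero, h0⟩
  have h1 := minpoly.eq_of_irreducible hP h0
  have h2 : (minpoly E⟮α⟯ β).natDegree = P.natDegree := by
    rw [← h1, natDegree_mul_C]
    exact inv_ne_zero (leadingCoeff_ne_zero.2 hP.ne_zero)
  rw [← h2, ← IntermediateField.adjoin.finrank hint, adjoin_top h]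
  exact (IntermediateField.finrank_top').symm

/-- irreducibility from the degree -/
theorem irr_of_finrank {α β : L} (h : adjoin E {α, β} = ⊤) {P : E⟮α⟯[X]} (hP : P ≠ 0)
    (h0 : aeval β P = 0) (hd : P.natDegree = Module.finrank E⟮α⟯ L) : Irreducible P := by
  have hint : IsIntegral E⟮α⟯ β := isAlgebraic_iff_isIntegral.1 ⟨P, hP, h0⟩
  have hdeg : (minpoly E⟮α⟯ β).natDegree = Module.finrank E⟮α⟯ L := by
    rw [← IntermediateField.adjoin.finrank hint, adjoin_top h]
    exact IntermediateField.finrank_top'
  obtain ⟨Q, hQ⟩ := minpoly.dvd E⟮α⟯ β h0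
  have hQ0 : Q ≠ 0 := by rintro rfl; exact hP (by rw [hQ, mul_zero])
  have hm0 := minpoly.ne_zero hint
  have : Q.natDegree = 0 := by
    have := natDegree_mul hm0 hQ0
    rw [← hQ, hd, hdeg] at this
    omega
  obtain ⟨c, rfl⟩ : ∃ c, Q = C c := ⟨Q.coeff 0, eq_C_of_natDegree_eq_zero this⟩
  have hc : c ≠ 0 := by rintro rfl; exact hQ0 (by simp)
  rw [hQ]
  exact (irreducible_mul_isUnit (isUnit_C.2 (isUnit_iff_ne_zero.2 hc))).2
    (minpoly.irreducible hint)

theorem swap_coeff (H : E[X][X]) (i j : ℕ) :
    ((Bivariate.swap H).coeff j).coeff i = (H.coeff i).coeff j := by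
  induction H using Polynomial.induction_on' with
  | add p q hp hq => rw [map_add, coeff_add, coeff_add, hp, hq, coeff_add, coeff_add]
  | monomial n f =>
    induction f using Polynomial.induction_on' with
    | add p q hp hq =>
      rw [map_add, map_add, coeff_add, coeff_add, hp, hq, coeff_add, coeff_add]
    | monomial m r =>
      rw [Bivariate.swap_monomial_monomial]
      simp only [coeff_monomial]
      by_cases h1 : m = j <;> by_cases h2 : n = i <;> simp [h1, h2, coeff_monomial]

theorem swap_eval (α β : L) (H : E[X][X]) :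
    (Bivariate.swap H).eval₂ (Polynomial.aeval β : Polynomial E →ₐ[E] L).toRingHom α =
      H.eval₂ (Polynomial.aeval α : Polynomial E →ₐ[E] L).toRingHom β := by
  induction H using Polynomial.induction_on' with
  | add p q hp hq => rw [map_add, eval₂_add, eval₂_add, hp, hq]
  | monomial n f =>
    induction f using Polynomial.induction_on' with
    | add p q hp hq =>
      rw [map_add, map_add, eval₂_add, eval₂_add, hp, hq]
    | monomial m r =>
      rw [Bivariate.swap_monomial_monomial, eval₂_monomial, eval₂_monomial]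
      simp only [AlgHom.toRingHom_eq_coe, RingHom.coe_coe, aeval_monomial]
      ring

theorem swp : SwpStmt := by
  intro E L _ _ _ α β H n hα htop hH h0 hdeg hpos hle hex hn
  have htop' : adjoin E {β, α} = ⊤ := by rw [Set.pair_comm]; exact htop
  have hH0 : H ≠ 0 := by rintro rfl; simp at hpos
  have hinj := phi_injective (E := E) hα
  -- `H` is irreducible
  have hirr : Irreducible H := by
    rw [irr_iff hα hH]
    apply irr_of_finrank htop
    · exact (Polynomial.map_ne_zero_iff hinj).2 hH0
    · rw [eval_map]; exact h0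
    · rw [natDegree_map_eq_of_injective hinj, hdeg]
  have hirr' : Irreducible (Bivariate.swap H) :=
    (MulEquiv.irreducible_iff (Bivariate.swap (R := E)).toMulEquiv).2 hirr
  have hnd : (Bivariate.swap H).natDegree = n := by
    apply le_antisymm
    · rw [natDegree_le_iff_coeff_eq_zero]
      intro j hj
      ext i
      rw [swap_coeff, coeff_zero]
      exact coeff_eq_zero_of_natDegree_lt (lt_of_le_of_lt (hle i) hj)
    · obtain ⟨i, hi⟩ := hex
      apply le_natDegree_of_ne_zero
      intro h
      apply hi
      rw [← swap_coeff, h, coeff_zero]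
  have hprim : (Bivariate.swap H).IsPrimitive := hirr'.isPrimitive (by rw [hnd]; omega)
  have h0' : aeval α ((Bivariate.swap H).map (phi (E := E) β)) = 0 := by
    rw [eval_map, swap_eval]; exact h0
  have hβ : Transcendental E β := by
    intro halg
    have hint : IsIntegral E β := halg.isIntegral
    have hz : (Bivariate.swap H).map (phi (E := E) β) = 0 := by
      by_contra hne
      have h1 : IsAlgebraic E⟮β⟯ α := ⟨_, hne, h0'⟩
      have : Algebra.IsAlgebraic E E⟮β⟯ := by
        have := (IntermediateField.isAlgebraic_adjoin_simple (K := E) hint)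
        exact this
      exact hα (h1.restrictScalars E)
    have hdvd : C (minpoly E β) ∣ Bivariate.swap H := by
      rw [C_dvd_iff_dvd_coeff]
      intro i
      apply minpoly.dvd
      rw [← phi_coe, ← coeff_map, hz, coeff_zero]
      rfl
    exact minpoly.not_isUnit E β (hprim _ hdvd)
  refine ⟨hβ, ?_⟩
  have hP := (irr_iff hβ hprim).1 hirr'
  rw [finrank_of_irr htop' hP h0', natDegree_map_eq_of_injective (phi_injective hβ), hnd]

end Pool.Agent.DDQ.H21
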